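import Pool.Agent.helper10.V3.SpecL

/-!
# Project v3:, module CNF: the configuration of the poles
-/

set_option autoImplicit false

open Complex Metric Set Filter Topology MeasureTheory MPS

noncomputable section

namespace V3S

theorem CNF (hSEP : SEP_stmt) (hGBD : GBD_stmt) (hPTS : PTS_stmt) (hBA2 : BA2_stmt) : CNF_stmt := by
  intro n ra Cf D hD
  obtain ⟨c₀, hc₀, hS⟩ := hSEP
  obtain ⟨C1, hC1, hG⟩ := hGBD
  obtain ⟨C2, hC2, hP⟩ := hPTS
  choose x y h1 h2 h3 h4 h5 h6 h7 h8 using fun m => hP n ra Cf (D m) (hD.good m)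
  have hC20 : 0 < C2 := by linarith
  have hc : 0 < min c₀ (1 / C2) := lt_min hc₀ (by positivity)
  have hBF : ∀ (m : ℕ) (z : ℂ), V3.BF (D m).p (fun l => (D m).sg * (D m).g l) z = (D m).B z := by
    intro m z
    rw [(hBA2 n ra Cf (D m) (hD.good m)).1 z]
    rfl
  refine ⟨min c₀ (1 / C2), max C1 C2, x, y, ⟨hc, ?_, ?_, ?_, ?_⟩, h8, ?_⟩
  · exact hC1.le.trans (le_max_left _ _)
  · refine Eventually.of_forall fun m i l hil => ?_
    exact (min_le_left _ _).trans ((hS n ra Cf (D m) (hD.good m)).1 i l hil)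
  · refine Eventually.of_forall fun m i => ?_
    exact (hG n ra Cf (D m) (hD.good m) i).trans (le_max_left _ _)
  · refine Eventually.of_forall fun m => ⟨?_, ?_, ?_, ?_, ?_, ?_⟩
    · exact (h1 m).trans (le_max_right _ _)
    · exact (h2 m).trans (le_max_right _ _)
    · exact (min_le_right _ _).trans (h3 m)
    · intro i
      exact ⟨(min_le_right _ _).trans (h7 m i).1, (min_le_right _ _).trans (h7 m i).2⟩
    · rw [hBF]
      exact (h4 m).trans (le_max_right _ _)
    · rw [hBF]
      exact (h5 m).trans (le_max_right _ _)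
  · intro m
    exact (min_le_right _ _).trans (h6 m)

end V3S

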